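import Pool.Agent.Helper59.Wav.Defs
import Pool.Agent.Helper59.Wav.Torus

/-!
# Kronecker's theorem on the closure of `ℤⁿ + Mℤⁿ`
-/

open MeasureTheory Set
open scoped FourierTransform RealInnerProductSpace Matrix ENNReal

noncomputable section

namespace Wav

namespace Kron

local instance : MeasureSpace UnitAddCircle := ⟨AddCircle.haarAddCircle⟩

local instance : Measure.IsAddHaarMeasure (volume : Measure UnitAddCircle) :=
  inferInstanceAs (Measure.IsAddHaarMeasure AddCircle.haarAddCircle)

local instance : IsProbabilityMeasure (volume : Measure UnitAddCircle) :=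
  inferInstanceAs (IsProbabilityMeasure AddCircle.haarAddCircle)

variable {n : ℕ}

/-- projection to the torus -/
def pr (x : Fin n → ℝ) : UnitAddTorus (Fin n) := fun i => ((x i : ℝ) : UnitAddCircle)

lemma pr_add (x y : Fin n → ℝ) : pr (x + y) = pr x + pr y := by
  funext i
  simp [pr]

lemma pr_zero : pr (0 : Fin n → ℝ) = 0 := by
  funext i
  simp [pr]

lemma mFourier_apply_add (k : Fin n → ℤ) (x y : UnitAddTorus (Fin n)) :
    UnitAddTorus.mFourier k (x + y) = UnitAddTorus.mFourier k x * UnitAddTorus.mFourier k y := by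
  simp only [UnitAddTorus.mFourier, ContinuousMap.coe_mk, ← Finset.prod_mul_distrib]
  refine Finset.prod_congr rfl fun i _ => ?_
  simp [fourier_apply, smul_add, AddCircle.toCircle_add]

lemma coeff_shift (f : C(UnitAddTorus (Fin n), ℂ)) (h : UnitAddTorus (Fin n)) (k : Fin n → ℤ) :
    UnitAddTorus.mFourierCoeff (fun y => f (y + h)) k
      = UnitAddTorus.mFourier k h * UnitAddTorus.mFourierCoeff f k := by
  unfold UnitAddTorus.mFourierCoeff
  have h1 := integral_add_right_eq_self (μ := (volume : Measure (UnitAddTorus (Fin n))))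
    (fun t => UnitAddTorus.mFourier (-k) (t - h) • f t) h
  simp only [add_sub_cancel_right] at h1
  rw [h1, ← integral_const_mul]
  refine integral_congr_ae (Filter.Eventually.of_forall fun t => ?_)
  have h2 : UnitAddTorus.mFourier (-k) (t - h)
      = UnitAddTorus.mFourier k h * UnitAddTorus.mFourier (-k) t := by
    have h3 := mFourier_apply_add (-k) (t - h) h
    rw [sub_add_cancel] at h3
    have h4 : UnitAddTorus.mFourier (-k) h * UnitAddTorus.mFourier k h = 1 := by
      rw [← UnitAddTorus.mFourier_add, neg_add_cancel, UnitAddTorus.mFourier_zero]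
      rfl
    rw [h3]
    linear_combination (-(UnitAddTorus.mFourier (-k) (t - h))) * h4
  simp only [h2, smul_eq_mul]
  ring

lemma eq_of_coeff (f g : C(UnitAddTorus (Fin n), ℂ))
    (h : ∀ k, UnitAddTorus.mFourierCoeff f k = UnitAddTorus.mFourierCoeff g k) : f = g := by
  have hc : ∀ f : C(UnitAddTorus (Fin n), ℂ), ∀ k,
      UnitAddTorus.mFourierCoeff (ContinuousMap.toLp (E := ℂ) 2 volume ℂ f) k
        = UnitAddTorus.mFourierCoeff f k := by
    intro f k
    unfold UnitAddTorus.mFourierCoeff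
    refine integral_congr_ae ?_
    filter_upwards [ContinuousMap.coeFn_toLp (p := 2) (𝕜 := ℂ) volume f] with t ht
    rw [ht]
  have h1 := UnitAddTorus.hasSum_mFourier_series_L2
    (ContinuousMap.toLp (E := ℂ) 2 volume ℂ f)
  have h2 := UnitAddTorus.hasSum_mFourier_series_L2
    (ContinuousMap.toLp (E := ℂ) 2 volume ℂ g)
  simp only [hc] at h1 h2
  simp only [h] at h1
  have h3 := h1.unique h2
  exact ContinuousMap.toLp_injective (𝕜 := ℂ) volume h3

end Kron

open Kron in
/-- Module K. Kronecker: the closure of `ℤⁿ + Mℤⁿ` is the annihilator of `ℤⁿ ∩ (Mᵀ)⁻¹ℤⁿ`. -/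
theorem kronecker {n : ℕ} (M : Matrix (Fin n) (Fin n) ℝ) (w : Fin n → ℝ)
    (h : ∀ q : Fin n → ℤ, (∀ i, ∃ m : ℤ, (Mᵀ *ᵥ fun a => (q a : ℝ)) i = m) →
      ∃ m : ℤ, w ⬝ᵥ (fun a => (q a : ℝ)) = m) :
    w ∈ closure {x : Fin n → ℝ | ∃ p q : Fin n → ℤ,
      x = (fun a => (p a : ℝ)) + M *ᵥ fun a => (q a : ℝ)} := by
  classical
  set S : Set (UnitAddTorus (Fin n)) := Set.range fun q : Fin n → ℤ => pr (M *ᵥ fun a => (q a : ℝ))
    with hS
  have hzero : (0 : UnitAddTorus (Fin n)) ∈ S := by
    refine ⟨0, ?_⟩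
    have : (fun a => ((0 : Fin n → ℤ) a : ℝ)) = 0 := by funext a; simp
    simp only [this, Matrix.mulVec_zero]
    exact pr_zero
  have himg : ∀ q : Fin n → ℤ,
      (fun y : UnitAddTorus (Fin n) => y + pr (M *ᵥ fun a => (q a : ℝ))) '' S = S := by
    intro q
    have hadd : ∀ q' q'' : Fin n → ℤ, pr (M *ᵥ fun a => (q' a : ℝ)) + pr (M *ᵥ fun a => (q'' a : ℝ))
        = pr (M *ᵥ fun a => ((q' + q'') a : ℝ)) := by
      intro q' q''
      rw [← pr_add, ← Matrix.mulVec_add]
      congr 2
      funext a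
      simp
    ext y
    constructor
    · rintro ⟨_, ⟨q', rfl⟩, rfl⟩
      exact ⟨q' + q, (hadd q' q).symm⟩
    · rintro ⟨q', rfl⟩
      refine ⟨_, ⟨q' - q, rfl⟩, ?_⟩
      simp only
      rw [hadd, sub_add_cancel]
  -- the distance function
  set f : C(UnitAddTorus (Fin n), ℂ) :=
    ⟨fun y => ((Metric.infDist y S : ℝ) : ℂ),
      Complex.continuous_ofReal.comp (Metric.continuous_infDist_pt S)⟩ with hf
  have hinv : ∀ (q : Fin n → ℤ) (y : UnitAddTorus (Fin n)),
      f (y + pr (M *ᵥ fun a => (q a : ℝ))) = f y := by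
    intro q y
    simp only [hf, ContinuousMap.coe_mk]
    congr 1
    have hiso : Isometry (fun y : UnitAddTorus (Fin n) => y + pr (M *ᵥ fun a => (q a : ℝ))) :=
      (IsometryEquiv.addRight (pr (M *ᵥ fun a => (q a : ℝ)))).isometry
    have h1 := Metric.infDist_image hiso (x := y) (t := S)
    rw [himg] at h1
    exact h1
  have hcoe : ∀ (k : Fin n → ℤ) (x : Fin n → ℝ), UnitAddTorus.mFourier k (pr x) = 1 ↔
      ∃ m : ℤ, ∑ i, (k i : ℝ) * x i = m := by
    intro k x
    have e : UnitAddTorus.mFourier k (pr x) = chr k x := mFourier_coe k x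
    rw [e, chr, Complex.exp_eq_one_iff]
    constructor
    · rintro ⟨m, hm⟩
      refine ⟨m, ?_⟩
      have h2 : (2 * (Real.pi : ℂ) * Complex.I) ≠ 0 := by
        simp [Real.pi_ne_zero]
      have h3 : ((∑ i, (k i : ℝ) * x i : ℝ) : ℂ) = (m : ℂ) := by
        apply mul_left_cancel₀ h2
        rw [hm]
        ring
      exact_mod_cast h3
    · rintro ⟨m, hm⟩
      refine ⟨m, ?_⟩
      rw [hm]
      push_cast
      ring
  -- shift by w
  set g : C(UnitAddTorus (Fin n), ℂ) := f.comp ⟨fun y => y + pr w, by fun_prop⟩ with hg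
  have hgf : g = f := by
    refine eq_of_coeff g f fun k => ?_
    have h1 : UnitAddTorus.mFourierCoeff g k
        = UnitAddTorus.mFourier k (pr w) * UnitAddTorus.mFourierCoeff f k := coeff_shift f (pr w) k
    rw [h1]
    by_cases hk : UnitAddTorus.mFourierCoeff f k = 0
    · rw [hk, mul_zero]
    · have h2 : ∀ q : Fin n → ℤ, UnitAddTorus.mFourier k (pr (M *ᵥ fun a => (q a : ℝ))) = 1 := by
        intro q
        have h3 := coeff_shift f (pr (M *ᵥ fun a => (q a : ℝ))) k
        have h4 : (fun y => f (y + pr (M *ᵥ fun a => (q a : ℝ)))) = f := by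
          funext y
          exact hinv q y
        rw [h4] at h3
        have h5 : (UnitAddTorus.mFourier k (pr (M *ᵥ fun a => (q a : ℝ))) - 1)
            * UnitAddTorus.mFourierCoeff f k = 0 := by
          linear_combination -h3
        rcases mul_eq_zero.mp h5 with h6 | h6
        · exact sub_eq_zero.mp h6
        · exact absurd h6 hk
      have h3 : ∃ m : ℤ, w ⬝ᵥ (fun a => (k a : ℝ)) = m := by
        refine h k fun i => ?_
        obtain ⟨m, hm⟩ := (hcoe k _).1 (h2 (Pi.single i 1))
        refine ⟨m, ?_⟩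
        rw [← hm]
        simp only [Matrix.mulVec, dotProduct, Matrix.transpose_apply]
        refine Finset.sum_congr rfl fun j _ => ?_
        rw [Finset.sum_eq_single i]
        · simp [mul_comm]
        · intro b _ hb
          simp [Pi.single_eq_of_ne hb]
        · intro hi
          exact absurd (Finset.mem_univ i) hi
      obtain ⟨m, hm⟩ := h3
      have h4 : UnitAddTorus.mFourier k (pr w) = 1 := by
        rw [hcoe]
        refine ⟨m, ?_⟩
        rw [← hm]
        simp only [dotProduct]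
        exact Finset.sum_congr rfl fun j _ => mul_comm _ _
      rw [h4, one_mul]
  -- conclusion on the torus
  have hw0 : Metric.infDist (pr w) S = 0 := by
    have h1 : g 0 = f 0 := by rw [hgf]
    have h2 : g 0 = ((Metric.infDist (pr w) S : ℝ) : ℂ) := by
      simp [hg, hf]
    have h3 : f 0 = 0 := by
      simp only [hf, ContinuousMap.coe_mk]
      rw [Metric.infDist_zero_of_mem hzero]
      simp
    rw [h2, h3] at h1
    exact_mod_cast h1
  have hcl : pr w ∈ closure S := (Metric.mem_closure_iff_infDist_zero ⟨0, hzero⟩).2 hw0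
  rw [Metric.mem_closure_iff] at hcl ⊢
  intro ε hε
  obtain ⟨_, ⟨q, rfl⟩, hq⟩ := hcl ε hε
  refine ⟨_, ⟨fun i => round (w i - (M *ᵥ fun a => (q a : ℝ)) i), q, rfl⟩, ?_⟩
  rw [dist_pi_lt_iff hε] at hq ⊢
  intro i
  have h1 := hq i
  simp only [pr] at h1
  rw [dist_eq_norm, ← AddCircle.coe_sub, UnitAddCircle.norm_eq] at h1
  rw [Real.dist_eq]
  simp only [Pi.add_apply]
  refine lt_of_eq_of_lt ?_ h1
  congr 1
  ring

end Wav
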